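import Pool.Agent.helper73.BRZ.Spec

set_option autoImplicit false

namespace Pool.Agent.BRZ

open Matrix Module

/-- the matrix with the single row `v` at `i` -/
def MOR_row {d m : ℕ} (i : Fin d) : (Fin d → ZMod m) →+ Matrix (Fin d) (Fin d) (ZMod m) where
  toFun v := fun k => if k = i then v else 0
  map_zero' := by
    funext k
    by_cases h : k = i <;> simp [h] <;> rfl
  map_add' v w := by
    funext k j
    by_cases h : k = i <;> simp [h]

theorem MOR_row_apply {d m : ℕ} (i : Fin d) (v : Fin d → ZMod m) (k : Fin d) :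
    MOR_row i v k = if k = i then v else 0 := rfl

theorem MOR_single_mul {d m : ℕ} (i j : Fin d) (x : Matrix (Fin d) (Fin d) (ZMod m)) :
    Matrix.single i j (1 : ZMod m) * x = MOR_row i (x j) := by
  funext k l
  rw [MOR_row_apply]
  by_cases h : k = i
  · subst h
    simp
  · rw [Matrix.single_mul_apply_of_ne _ _ _ _ _ h]
    simp [h]

theorem MOR_sum {d m : ℕ} (x : Matrix (Fin d) (Fin d) (ZMod m)) : x = ∑ i, MOR_row i (x i) := by
  funext k l
  rw [Matrix.sum_apply]
  rw [Finset.sum_eq_single k]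
  · rw [MOR_row_apply]; simp
  · intro b _ hb
    rw [MOR_row_apply, if_neg (Ne.symm hb)]; rfl
  · simp

theorem MOR_smul {d m : ℕ} (W : AddSubgroup (Fin d → ZMod m)) (a : ZMod m) (v : Fin d → ZMod m) (hv : v ∈ W) :
    a • v ∈ W := by
  obtain ⟨z, rfl⟩ := ZMod.intCast_surjective a
  have : (z : ZMod m) • v = z • v := by
    funext i
    simp
  rw [this]
  exact W.zsmul_mem hv z

/-- the left ideal of the matrices with rows in `W` -/
def MOR_J {d m : ℕ} (W : AddSubgroup (Fin d → ZMod m)) : AddSubgroup (Matrix (Fin d) (Fin d) (ZMod m)) where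
  carrier := {x | ∀ i, x i ∈ W}
  zero_mem' := fun i => W.zero_mem
  add_mem' := fun {a b} ha hb i => W.add_mem (ha i) (hb i)
  neg_mem' := fun {a} ha i => W.neg_mem (ha i)

theorem MOR_J_mul {d m : ℕ} (W : AddSubgroup (Fin d → ZMod m)) (a x : Matrix (Fin d) (Fin d) (ZMod m))
    (hx : x ∈ MOR_J W) : a * x ∈ MOR_J W := by
  intro i
  have : (a * x) i = ∑ j, a i j • x j := by
    funext l
    rw [Matrix.mul_apply, Finset.sum_apply]
    rfl
  rw [this]
  exact W.sum_mem (fun j _ => MOR_smul W _ _ (hx j))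

theorem MOR_mem {d m : ℕ} (i₀ : Fin d) (J : AddSubgroup (Matrix (Fin d) (Fin d) (ZMod m)))
    (hJ : ∀ a : Matrix (Fin d) (Fin d) (ZMod m), ∀ x ∈ J, a * x ∈ J) (x : Matrix (Fin d) (Fin d) (ZMod m)) :
    x ∈ J ↔ ∀ i, x i ∈ J.comap (MOR_row i₀) := by
  constructor
  · intro hx i
    rw [AddSubgroup.mem_comap, ← MOR_single_mul]
    exact hJ _ _ hx
  · intro h
    rw [MOR_sum x]
    apply J.sum_mem
    intro i _
    have h1 := hJ (Matrix.single i i₀ (1 : ZMod m)) _ (AddSubgroup.mem_comap.1 (h i))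
    rw [MOR_single_mul, MOR_row_apply, if_pos rfl] at h1
    exact h1

theorem MOR : MOR_stmt := by
  intro d m hd hm
  let i₀ : Fin d := ⟨0, hd⟩
  let e : {J : AddSubgroup (Matrix (Fin d) (Fin d) (ZMod m)) //
      ∀ a : Matrix (Fin d) (Fin d) (ZMod m), ∀ x ∈ J, a * x ∈ J} ≃ AddSubgroup (Fin d → ZMod m) :=
    { toFun := fun J => J.1.comap (MOR_row i₀)
      invFun := fun W => ⟨MOR_J W, fun a x hx => MOR_J_mul W a x hx⟩
      left_inv := by
        intro J
        apply Subtype.ext
        ext x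
        exact (MOR_mem i₀ J.1 J.2 x).symm
      right_inv := by
        intro W
        ext v
        change (∀ k, MOR_row i₀ v k ∈ W) ↔ v ∈ W
        constructor
        · intro h
          have := h i₀
          rwa [MOR_row_apply, if_pos rfl] at this
        · intro hv k
          rw [MOR_row_apply]
          split_ifs
          · exact hv
          · exact W.zero_mem }
  refine ⟨e, ?_⟩
  intro J
  have h1 : Nat.card J.1 = Nat.card (Fin d → (e J)) := by
    apply Nat.card_congr
    exact
      { toFun := fun x i => ⟨x.1 i, (MOR_mem i₀ J.1 J.2 x.1).1 x.2 i⟩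
        invFun := fun f => ⟨fun i => (f i).1, (MOR_mem i₀ J.1 J.2 _).2 (fun i => (f i).2)⟩
        left_inv := fun x => rfl
        right_inv := fun f => rfl }
  rw [h1, Nat.card_fun, Nat.card_fin]

end Pool.Agent.BRZ
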